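import Mathlib
import Pool.Agent.W295.Cl.Final

/-!
# Artin's holomorphy conjecture at zeros of small order: groups built from classical groups in
characteristic two and alternating groups

`Pool.Agent.H541R3.ART.Irr G` is the set of irreducible complex characters of the finite group `G`.

`Pool.Agent.H541R3.ART.ArtinData G s₀` is a family of functions with the formal properties of the
Artin L-functions of a Galois extension `E/K` with group `G` near a point `s₀ ≠ 1`: functions
`L χ` for the irreducible characters `χ` of `G` and `Lin H ψ` for the linear characters `ψ` of the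
subgroups `H`, such that `L χ` is meromorphic and not identically zero near `s₀` (Brauer), `Lin H ψ`
has no pole at `s₀` (Artin reciprocity and Hecke), and `Lin H ψ` is the product of the
`L χ ^ ⟨χ|_H, ψ⟩` (induction). In particular `Lin ⊥ 1` stands for the Dedekind zeta function of `E`.

`Pool.Agent.W295.Cl.Fac r S` says that `S` is one of the following groups, where `q` is even:
* `A_m`, `m ≥ 5`, with `r < (2 ^ j - 1) ⌊m / 2 ^ j⌋` for some `j ≥ 2`;
* `SL_n(q)`, `n = a + b`, `a, b ≥ 1` coprime, `r gcd(n, q - 1) (q - 1) < (q ^ a - 1) (q ^ b - 1)`;
* `Sp_{2n}(q)` with `2 (q + 1) r < (q ^ n - 1) (q ^ n - q)`;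
* `Ω^±_{2n}(q)`, `n ≥ 4`, with `r < (q ^ (n - 1) + 1) (q ^ (n - 2) - 1)`;
* `SU_n(q)`, `n ≥ 3`, with `r < (q - 1) q ^ (n - 2)`, and `3 r < q ^ 2 - 1` if `n = 3`, `3 ∣ q + 1`.

`Pool.Agent.W295.Cl.Built r (Fac r) N` says that the normal subgroup `N` of `G` is obtained from
the trivial subgroup by finitely many steps `M ≤ N` of the following two kinds.
* `Lay`: `N / M` is generated by finitely many pairwise commuting subgroups `X i` of `G / M`, each a
  homomorphic image of a group with the property `Fac r`, such that for every `g` in `G / M` and
  every `i` either `g X_i g⁻¹ ≤ X_j` for some `j ≠ i`, or `g` normalizes `X i` and some prime power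
  of `g` induces an inner automorphism of `X i` (`Fam`). For example every direct product of groups
  with `Fac r` is allowed in a direct product with any group, and in every wreath product.
* `Orb`: `N / M` is abelian and every nontrivial linear character of `N / M` has more than `r`
  conjugates under `G / M`.
-/

set_option autoImplicit false

open Pool.Agent.H541R3.ART Pool.Agent.W295.Cl

/-- Let `G` be the Galois group of `E/K`, let `r` be the order of `ζ_E` at `s₀`, and let `N` be a
normal subgroup of `G` built as above from classical groups in characteristic two and alternating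
groups. Then `L χ` is holomorphic and nonzero at `s₀` for every irreducible character `χ` of `G`
which is nontrivial on `N`; and if the irreducible characters trivial on `N` are monomial, then all
`L χ` are holomorphic at `s₀`. -/
theorem Pool.Agent.Results.MP_d2121a_nt.ClassicalEven.result
    (G : Type) [Group G] [Finite G] (s₀ : ℂ) (A : ArtinData G s₀) (r : ℕ)
    (hr : meromorphicOrderAt (A.Lin ⊥ 1) s₀ = (r : WithTop ℤ)) (N : Subgroup G)
    (hN : Built r (Fac r) N) :
    (∀ χ ∈ Irr G, (∃ n ∈ N, χ n ≠ χ 1) → meromorphicOrderAt (A.L χ) s₀ = 0) ∧
    ((∀ χ ∈ Irr G, (∀ n ∈ N, χ n = χ 1) → IsMonomialChar χ) →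
      ∀ χ ∈ Irr G, 0 ≤ meromorphicOrderAt (A.L χ) s₀) :=
  artin_classical A hr N hN
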