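import Pool.Agent.W76.BK.Art2
import Pool.Agent.W76.BK.Art3
import Pool.Agent.H341R2.NF.SysK

/-!
# The order of an Artin L-function at every point as a limit of character means

`L/K` is a finite Galois extension of number fields, `ρ` any representation of its group `G` on a
complex vector space `V` of finite dimension, with character `χ`, and `φ v ∈ G` a Frobenius element at
the finite place `v` of `K` (nothing is used about the choice of `φ v`).  `S` is a finite set of places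
which contains the ramified ones; at the places of `S` the Euler factors are any inverse polynomials
`B_v(Nv^{-s})⁻¹` without poles in `Re s > 0`, for instance `det(1 - Frob_v Nv^{-s} | V^{I_v})⁻¹`.  `F` is a
meromorphic continuation of the Artin L-function `L(s, χ)` to the half plane `Re s > 0`; it exists by
Brauer's theorem.  Nothing else is used: no functional equation, no information about zeros and poles.

For a point `s₀` with `Re s₀ > 0`, an angle `γ` and `T > 0` put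

`M_γ(T, s₀) = (1/T) ∑_{v ∉ S, j ≥ 1} χ(φ_v^j) log Nv · Nv^{-j s₀} · e^{iγ j log Nv / T} /
Γ(1 + j log Nv / T)`,

an absolutely convergent series, and `V(a) = ∫_0^∞ e^{at} / Γ(1+t) dt` (Volterra's function of `e^a`).

* **Order at every point.**  For every `γ > π/2` and every `s₀` with `Re s₀ > 0`:
  `M_γ(T, s₀) = - ord_{s₀} F · V(iγ) + O(1/T)`; if `γ ≤ π`, then `Im V(iγ) > 0`.  So the order of the
  Artin L-function at EVERY point is a limit of means of its character over Frobenius elements, and this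
  limit exists for every Artin L-function.
* **Explicit formula** with the zeros and poles on one horizontal ray only, for every angle `γ`:
  `M_γ(T, s₀) = - ∑_{x ≥ 0} ord_{s₀ + x} F · V(xT + iγ) + O(1/T)`.
* **Pole detector.**  `F` is holomorphic at `s₀` if and only if `Im M_γ(T, s₀) < ½ Im V(iγ)` for
  arbitrarily large `T`; at a pole, `Im M_γ(T, s₀) > ½ Im V(iγ)` for all large `T`.
* Hence Artin's conjecture for `χ ≠ 1` irreducible (by the functional equation it says that `L(s, χ)`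
  and `L(s, χ̄)` have no poles in `Re s > 0`) is equivalent to this one-sided inequality, for arbitrarily
  large `T`, at each point `s₀` of the half plane.

Idea: `e^{iγv}/Γ(1 + v) = (2πi)⁻¹ ∫ exp(e^z) e^{-(z - iγ)v} dz` along the boundary of a half strip
`Re z ≥ a`, `|Im z| ≤ π`; so `T M_γ(T, s₀)` is the integral of `- (L'/L)(s₀ + (z - iγ)/T)`, and in the
scale `(z - iγ)/T` this strip shrinks to the ray.  After the polar parts at the zeros and poles on the
ray are removed, the integral is bounded; the polar part of a zero gives `V` exactly.  If `γ > π/2`, the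
polar parts at `s₀ + x`, `x > 0`, contribute `O(1/T)`.
-/

set_option autoImplicit false

namespace Pool.Agent.Results.MP_d2121a_nt.PoleDetector

open NumberField IsDedekindDomain Filter Topology Polynomial

variable {K L V : Type} [Field K] [NumberField K] [Field L] [NumberField L] [Algebra K L]
  [AddCommGroup V] [Module ℂ V]

/-- `χ(φ_v^j)`, `χ` the character of `ρ`. -/
noncomputable def frobChar (ρ : Representation ℂ (L ≃ₐ[K] L) V)
    (φ : HeightOneSpectrum (𝓞 K) → (L ≃ₐ[K] L)) (v : HeightOneSpectrum (𝓞 K)) (j : ℕ) : ℂ :=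
  LinearMap.trace ℂ V (ρ (φ v ^ j))

open Classical in
/-- The Artin L-function as an Euler product.  At the places `v ∉ S` the factor is
`det(1 - φ_v Nv^{-s} | V)⁻¹ = exp(∑_{j ≥ 1} χ(φ_v^j) Nv^{-js} / j)`; at the places of the finite set `S`
it is `B_v(Nv^{-s})⁻¹`. -/
noncomputable def LFun (ρ : Representation ℂ (L ≃ₐ[K] L) V)
    (φ : HeightOneSpectrum (𝓞 K) → (L ≃ₐ[K] L)) (S : Finset (HeightOneSpectrum (𝓞 K)))
    (B : HeightOneSpectrum (𝓞 K) → ℂ[X]) (s : ℂ) : ℂ :=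
  ∏' v : HeightOneSpectrum (𝓞 K),
    if v ∈ S then ((B v).eval (((Ideal.absNorm v.asIdeal : ℕ) : ℂ) ^ (-s)))⁻¹
    else Complex.exp (∑' m : ℕ, frobChar ρ φ v (m + 1) *
      ((Ideal.absNorm v.asIdeal : ℕ) : ℂ) ^ (-((m + 1 : ℂ) * s)) / (m + 1))

open Classical in
/-- The term `χ(φ_v^j) log Nv · Nv^{-j s₀} · e^{iγ j log Nv / T} / Γ(1 + j log Nv / T)`,
`x = (v, j - 1)`, `v ∉ S`. -/
noncomputable def charTerm (ρ : Representation ℂ (L ≃ₐ[K] L) V)
    (φ : HeightOneSpectrum (𝓞 K) → (L ≃ₐ[K] L)) (S : Finset (HeightOneSpectrum (𝓞 K))) (s₀ : ℂ)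
    (γ T : ℝ) (x : HeightOneSpectrum (𝓞 K) × ℕ) : ℂ :=
  if x.1 ∈ S then 0 else
    frobChar ρ φ x.1 (x.2 + 1) * Real.log (Ideal.absNorm x.1.asIdeal : ℝ) *
      ((Ideal.absNorm x.1.asIdeal : ℕ) : ℂ) ^ (-((x.2 + 1 : ℂ) * s₀)) *
      Complex.exp (((γ * ((x.2 + 1) * Real.log (Ideal.absNorm x.1.asIdeal : ℝ) / T) : ℝ) : ℂ) *
        Complex.I) /
      ((Real.Gamma (1 + (x.2 + 1) * Real.log (Ideal.absNorm x.1.asIdeal : ℝ) / T) : ℝ) : ℂ)

/-- The mean `M_γ(T, s₀)`: the sum of all these terms, divided by `T`. -/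
noncomputable def charMean (ρ : Representation ℂ (L ≃ₐ[K] L) V)
    (φ : HeightOneSpectrum (𝓞 K) → (L ≃ₐ[K] L)) (S : Finset (HeightOneSpectrum (𝓞 K))) (s₀ : ℂ)
    (γ T : ℝ) : ℂ := (∑' x, charTerm ρ φ S s₀ γ T x) / T

/-- Volterra's function, `V(a) = ∫_0^∞ e^{at} / Γ(1+t) dt`. -/
noncomputable def volterra (a : ℂ) : ℂ :=
  ∫ t in Set.Ioi (0 : ℝ), Complex.exp (a * t) * (((Real.Gamma (1 + t))⁻¹ : ℝ) : ℂ)

/-- **The order of an Artin L-function at every point as a limit of character means.**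

Let `L/K` be a finite Galois extension of number fields, `ρ` a representation of `Gal(L/K)` on a complex
vector space of finite dimension, `φ v` a Frobenius element at `v` (in fact any elements), `B_v`,
`v ∈ S`, polynomials with `B_v(Nv^{-s}) ≠ 0` for `Re s > 0`, and `F` a function, meromorphic at the
points of the half plane `Re s > 0`, with `F(s) = L(s, χ)` for `Re s > 1`.

Part A.  Let `Re s₀ > 0`.

1. The series for `M_γ(T, s₀)` converges absolutely, for all `γ` and all `T > 0`.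
2. `F` has an order `n ∈ ℤ` at `s₀` (negative at a pole), and the set `Z` of the `x > 0` such that
`s₀ + x` is a zero or a pole of `F` is finite; let `k_x` be the order of `F` at `s₀ + x`.
3. For every `γ`: `M_γ(T, s₀) = - n V(iγ) - ∑_{x ∈ Z} k_x V(xT + iγ) + O(1/T)`.
4. For every `γ > π/2`: `M_γ(T, s₀) = - n V(iγ) + O(1/T)`.
5. For every `π/2 < γ ≤ π`: `Im V(iγ) > 0`; `M_γ(T, s₀) → - n V(iγ)`; `F` has neither a zero nor a pole
at `s₀` iff `M_γ(T, s₀) → 0`; and `F` has no pole at `s₀` iff `Im M_γ(T, s₀) < ½ Im V(iγ)` for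
arbitrarily large `T`.

Part B.  For every `π/2 < γ ≤ π`: `F` has no pole in the half plane `Re s > 0` if and only if for every
`s₀` with `Re s₀ > 0` one has `Im M_γ(T, s₀) < ½ Im V(iγ)` for arbitrarily large `T`. -/
theorem result (K L V : Type) [Field K] [NumberField K] [Field L] [NumberField L] [Algebra K L]
    [IsGalois K L] [AddCommGroup V] [Module ℂ V] [FiniteDimensional ℂ V]
    (ρ : Representation ℂ (L ≃ₐ[K] L) V) (φ : HeightOneSpectrum (𝓞 K) → (L ≃ₐ[K] L))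
    (S : Finset (HeightOneSpectrum (𝓞 K))) (B : HeightOneSpectrum (𝓞 K) → ℂ[X])
    (hB : ∀ v ∈ S, ∀ s : ℂ, 0 < s.re →
      (B v).eval (((Ideal.absNorm v.asIdeal : ℕ) : ℂ) ^ (-s)) ≠ 0)
    (F : ℂ → ℂ) (hF1 : ∀ s : ℂ, 0 < s.re → MeromorphicAt F s)
    (hF2 : ∀ s : ℂ, 1 < s.re → F s = LFun ρ φ S B s) :
    (∀ s₀ : ℂ, 0 < s₀.re →
      (∀ γ T : ℝ, 0 < T → Summable fun x => ‖charTerm ρ φ S s₀ γ T x‖) ∧
      ∃ (n : ℤ) (Z : Finset ℝ) (k : ℝ → ℤ),
        meromorphicOrderAt F s₀ = n ∧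
        (∀ x : ℝ, x ∈ Z ↔ 0 < x ∧ meromorphicOrderAt F (s₀ + x) ≠ 0) ∧
        (∀ x ∈ Z, meromorphicOrderAt F (s₀ + x) = k x) ∧
        (∀ γ : ℝ, ∃ C T₀ : ℝ, ∀ T ≥ T₀, ‖charMean ρ φ S s₀ γ T +
          (n * volterra (γ * Complex.I) + ∑ x ∈ Z, (k x : ℂ) *
            volterra ((x * T : ℝ) + γ * Complex.I))‖ ≤ C / T) ∧
        (∀ γ : ℝ, Real.pi / 2 < γ → ∃ C T₀ : ℝ, ∀ T ≥ T₀,
          ‖charMean ρ φ S s₀ γ T + n * volterra (γ * Complex.I)‖ ≤ C / T) ∧
        ∀ γ : ℝ, Real.pi / 2 < γ → γ ≤ Real.pi →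
          0 < (volterra (γ * Complex.I)).im ∧
          Tendsto (fun T : ℝ => charMean ρ φ S s₀ γ T) atTop
            (𝓝 (-(n * volterra (γ * Complex.I)))) ∧
          (n = 0 ↔ Tendsto (fun T : ℝ => charMean ρ φ S s₀ γ T) atTop (𝓝 0)) ∧
          (0 ≤ n ↔ ∃ᶠ T : ℝ in atTop,
            (charMean ρ φ S s₀ γ T).im < (volterra (γ * Complex.I)).im / 2)) ∧
    (∀ γ : ℝ, Real.pi / 2 < γ → γ ≤ Real.pi →
      ((∀ s : ℂ, 0 < s.re → 0 ≤ meromorphicOrderAt F s) ↔
        ∀ s₀ : ℂ, 0 < s₀.re → ∃ᶠ T : ℝ in atTop,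
          (charMean ρ φ S s₀ γ T).im < (volterra (γ * Complex.I)).im / 2)) := by
  have : Module.Finite K L := Module.Finite.of_restrictScalars_finite ℚ K L
  have ht : ∀ v, v ∉ S → ∀ j : ℕ, 1 ≤ j → ‖frobChar ρ φ v j‖ ≤ (Module.finrank ℂ V : ℝ) :=
    fun v _ j _ => Pool.Agent.W76.BK.Art.rep_trace_le ρ (φ v ^ j)
  have hD : (0 : ℝ) ≤ Module.finrank ℂ V := by positivity
  have hM : ∀ s₀ γ T, charMean ρ φ S s₀ γ T = Pool.Agent.W76.BK.Art.aMean
      (Pool.Agent.H341R2.sysK K) S (frobChar ρ φ) s₀ γ T := fun s₀ γ T => rfl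
  have hL : ∀ s : ℂ, 1 < s.re → F s = Pool.Agent.W76.BK.Art.LA (Pool.Agent.H341R2.sysK K) S B
      (frobChar ρ φ) s := fun s hs => hF2 s hs
  have main : ∀ s₀ : ℂ, 0 < s₀.re → _ := fun s₀ hs₀ =>
    Pool.Agent.W76.BK.Art.art (S := Pool.Agent.H341R2.sysK K) (Bs := S) (B := B)
      (t := frobChar ρ φ) (F := F) (s₀ := s₀) hD ht hs₀ hB
      (fun x hx => hF1 _ (by rw [Complex.add_re, Complex.ofReal_re]; linarith)) hL
  refine ⟨fun s₀ hs₀ => ⟨fun γ T hT => Pool.Agent.W76.BK.Art.aTerm_summable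
    (S := Pool.Agent.H341R2.sysK K) (Bs := S) (t := frobChar ρ φ) hD ht hs₀.le γ hT, ?_⟩,
    fun γ hγ hγ2 => ?_⟩
  · obtain ⟨n, Z, k, h1, h2, h3, h4, h5⟩ := main s₀ hs₀
    refine ⟨n, Z, k, h1, h2, h3, h4, h5, fun γ hγ hγ2 => ?_⟩
    have hγ0 : 0 < γ := by linarith [Real.pi_pos]
    obtain ⟨h6, h7, h8⟩ := Pool.Agent.W76.BK.Art.holo_iff hγ0 hγ2 (h5 γ hγ)
    exact ⟨Pool.Agent.W76.BK.MotT.NU_im_pos hγ0 hγ2, h8, h7, h6⟩
  · have hγ0 : 0 < γ := by linarith [Real.pi_pos]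
    refine forall_congr' fun s₀ => ?_
    refine forall_congr' fun hs₀ => ?_
    obtain ⟨n, Z, k, h1, h2, h3, h4, h5⟩ := main s₀ hs₀
    obtain ⟨h6, -, -⟩ := Pool.Agent.W76.BK.Art.holo_iff hγ0 hγ2 (h5 γ hγ)
    have h7 : (∃ᶠ T : ℝ in atTop, (charMean ρ φ S s₀ γ T).im <
        (volterra (γ * Complex.I)).im / 2) ↔ 0 ≤ n := h6.symm
    rw [h7, h1]
    exact_mod_cast Iff.rfl

end Pool.Agent.Results.MP_d2121a_nt.PoleDetector
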