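import Mathlib
import Pool.Agent.W446.AS.FArt

/-!
# Artin's holomorphy conjecture for solvable groups at zeros of small order

`Pool.Agent.H541R3.ART.Irr G` is the set of irreducible complex characters of the finite group `G`.

`Pool.Agent.H541R3.ART.ArtinData G s₀` is a family of functions with the formal properties of the
Artin L-functions of a Galois extension `E/K` with group `G` near a point `s₀ ≠ 1`: functions
`L χ` for the irreducible characters `χ` of `G` and `Lin H ψ` for the linear characters `ψ` of the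
subgroups `H`, such that `L χ` is meromorphic and not identically zero near `s₀` (Brauer), `Lin H ψ`
has no pole at `s₀` (Artin reciprocity and Hecke), and `Lin H ψ` is the product of the
`L χ ^ ⟨χ|_H, ψ⟩` (induction). In particular `Lin ⊥ 1` stands for the Dedekind zeta function of `E`.

`Pool.Agent.W446.AS.TwoDim A` are functions with the formal properties of the Artin L-functions of
the irreducible characters of degree two of the subgroups of `G`; for solvable `G` these have no pole
at `s₀` by the theorem of Langlands and Tunnell.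

`Pool.Agent.W446.AS.Frame X F D`: the centre `Z` of `X` is cyclic and contains all abelian normal
subgroups of `X`, and `F` is a normal subgroup of `X` containing `Z` such that `F / Z` is abelian of
order `D ^ 2 > 1` and the centraliser of `F` in `X` is `Z`.
-/

set_option autoImplicit false

open Pool.Agent.H541R3.ART Pool.Agent.W446.AS

/-- Let `G` be solvable and let `ζ_E` have order `r` at `s₀`.
(1) If some `L χ` has a pole at `s₀`, then some quotient `X` of a subgroup of `G` has a frame `F` of
degree `D` such that `2 D ≤ r`, or `D ≤ r` and `X / F` is cyclic; and `D ≠ 2` if the `L`-functions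
of degree two have no pole at `s₀`.
(2) No `L χ` has a pole at `s₀` in each of the following cases: `r ≤ 2 P - 2` and all prime divisors
of `|G|` are at least `P ≥ 3`; `r ≤ 12` and `|G|` is prime to `6`; `r ≤ 10` and `|G|` is odd and
divisible neither by `375` nor by `1215`; `r ≤ 6`, the `L`-functions of degree two have no pole at
`s₀`, and `|G|` is divisible by none of `108`, `160`, `375`. -/
theorem Pool.Agent.Results.MP_d2121a_nt.SolvableSmallOrder.result :
    (∀ (G : Type) [Group G] [Finite G] [Group.IsSolvable G] (s₀ : ℂ) (A : ArtinData G s₀) (r : ℕ),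
      meromorphicOrderAt (A.Lin ⊥ 1) s₀ = (r : WithTop ℤ) →
      (∃ χ ∈ Irr G, meromorphicOrderAt (A.L χ) s₀ < 0) →
      ∃ (H : Subgroup G) (X : Type) (_ : Group X) (f : H →* X) (F : Subgroup X) (D : ℕ),
        Function.Surjective f ∧ Frame X F D ∧ (Nonempty (TwoDim A) → D ≠ 2) ∧
        (2 * D ≤ r ∨ (D ≤ r ∧ ∃ g : X, F ⊔ Subgroup.zpowers g = ⊤))) ∧
    (∀ (G : Type) [Group G] [Finite G] [Group.IsSolvable G] (s₀ : ℂ) (A : ArtinData G s₀) (r : ℕ),
      meromorphicOrderAt (A.Lin ⊥ 1) s₀ = (r : WithTop ℤ) →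
      ((∃ P : ℕ, 3 ≤ P ∧ r ≤ 2 * P - 2 ∧ ∀ q : ℕ, q.Prime → q ∣ Nat.card G → P ≤ q) ∨
        (r ≤ 12 ∧ (Nat.card G).Coprime 6) ∨
        (r ≤ 10 ∧ Odd (Nat.card G) ∧ ¬ 375 ∣ Nat.card G ∧ ¬ 1215 ∣ Nat.card G) ∨
        (r ≤ 6 ∧ Nonempty (TwoDim A) ∧ ¬ 108 ∣ Nat.card G ∧ ¬ 160 ∣ Nat.card G ∧
          ¬ 375 ∣ Nat.card G)) →
      ∀ χ ∈ Irr G, 0 ≤ meromorphicOrderAt (A.L χ) s₀) := by
  refine ⟨?_, ?_⟩
  · rintro G _ _ _ s₀ A r hr ⟨χ, hχ, hneg⟩
    by_contra hcon
    have hfree : Free (Nonempty (TwoDim A)) r G := by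
      rintro H X _ f hf ⟨F, D, hF, h1, h2⟩
      exact hcon ⟨H, X, _, f, F, D, hf, hF, h1, h2⟩
    exact (not_lt.mpr (artin_solvable _ A id hr hfree χ hχ)) hneg
  · intro G _ _ _ s₀ A r hr h
    rcases h with ⟨P, hP, hrP, hq⟩ | ⟨h12, h6⟩ | ⟨h10, hodd, h375, h1215⟩ | ⟨h6, hT, h108, h160, h375⟩
    · exact artin_solvable False A (fun h => h.elim) hr (free_least _ hP hrP hq)
    · exact artin_solvable False A (fun h => h.elim) hr (free_twelve _ h12 h6)
    · exact artin_solvable False A (fun h => h.elim) hr (free_ten _ h10 hodd h375 h1215)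
    · exact artin_solvable True A (fun _ => hT) hr ((free_six h108 h160 h375).mono h6)
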